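import Pool.Agent.Lib.helper26.JTP2

namespace Pool.Agent.Results.MP_ec0d67_nt.Yes

open Finset PowerSeries Pool.Agent.Lib.JTP

/-- no odd part is repeated -/
def OddDistinct {m : ℕ} (p : m.Partition) : Prop := ∀ i, Odd i → p.parts.count i ≤ 1

/-- sum of the odd parts minus sum of the even parts -/
def w {m : ℕ} (p : m.Partition) : ℤ :=
  ((p.parts.filter Odd).sum : ℕ) - ((p.parts.filter Even).sum : ℕ)

open Classical in
noncomputable def S (m : ℕ) : ℤ := ∑ p : m.Partition with OddDistinct p, w p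

section
variable {R : Type} [CommRing R]

def wt (u v : R) (i c : ℕ) : R := if Odd i then (if c ≤ 1 then (u ^ i) ^ c else 0) else (v ^ i) ^ c

open Classical in
theorem coeff_gen (e : R) (he : e ^ 2 = 0) (m : ℕ) :
    coeff m (Nat.Partition.genFun (wt (1 + e) (1 - e)))
      = ∑ p : m.Partition with OddDistinct p, (1 + e * w p) := by
  rw [Nat.Partition.coeff_genFun, sum_filter]
  refine sum_congr rfl fun p _ => ?_
  rw [Finsupp.prod]
  simp only [Multiset.toFinsupp_support, Multiset.toFinsupp_apply]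
  split_ifs with h
  · have : ∀ s : Multiset ℕ, (s.map fun i => if Odd i then (1 + e) ^ i else (1 - e) ^ i).prod
        = 1 + e * ((((s.filter Odd).sum : ℕ) - ((s.filter Even).sum : ℕ) : ℤ) : R) := by
      intro s
      induction s using Multiset.induction_on with
      | empty => simp
      | cons a s ih =>
        rw [Multiset.map_cons, Multiset.prod_cons, ih]
        by_cases ha : Odd a
        · rw [if_pos ha, Multiset.filter_cons_of_pos _ ha,
            Multiset.filter_cons_of_neg _ (Nat.not_even_iff_odd.2 ha), one_add_pow_sq he,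
            Multiset.sum_cons]
          generalize (s.filter Odd).sum = b
          generalize (s.filter Even).sum = c
          push_cast
          linear_combination (a : R) * (b - c) * he
        · rw [if_neg ha, Multiset.filter_cons_of_neg _ ha,
            Multiset.filter_cons_of_pos _ (Nat.not_odd_iff_even.1 ha), sub_eq_add_neg 1 e,
            one_add_pow_sq (e := -e) (by rw [neg_sq, he]), Multiset.sum_cons]
          generalize (s.filter Odd).sum = b
          generalize (s.filter Even).sum = c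
          push_cast
          linear_combination -(a : R) * (b - c) * he
    rw [w, ← this, Finset.prod_multiset_map_count]
    refine prod_congr rfl fun i _ => ?_
    unfold wt
    by_cases hi : Odd i
    · simp only [hi, if_true, h i hi]
    · simp only [hi, if_false]
  · obtain ⟨i, hi⟩ := not_forall.1 h
    obtain ⟨h1, h2⟩ := Classical.not_imp.1 hi
    refine prod_eq_zero (i := i) ?_ (by simp only [wt, h1, h2, if_true, if_false])
    rw [Multiset.mem_toFinset, ← Multiset.one_le_count_iff_mem]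
    omega

open scoped PowerSeries.WithPiTopology in
theorem gen_rel {B : Type} [CommRing B] (u v : R) {M : ℕ} {π : R⟦X⟧ →+* B} (hπ : Tr π M) :
    π (Nat.Partition.genFun (wt u v)) * P ((π (C v) * -π X) ^ 2) M * P ((π (C u) * -π X) ^ 2) M
      = P (π (C u) * -π X) M := by
  let : TopologicalSpace R := ⊥
  have : DiscreteTopology R := ⟨rfl⟩
  have nil : ∀ r : R, (π (C r) * -π X) ^ M = 0 := fun r => by
    rw [mul_neg, ← neg_mul]; exact hπ.nil _
  obtain ⟨N, hN, h⟩ := gen_trunc (wt u v) 2 (by norm_num) hπ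
  rw [prod_two] at h
  have n2 := fun r => nil_pow (nil r) 2 (by norm_num)
  rw [h, ← P_stab (n2 v) hN, ← P_stab (n2 u) hN, ← P_stab (nil u) hN,
    ← Om_mul (pow_zero_of_le (nil u) hN)]
  congr 1
  rw [mul_assoc, P, ← prod_mul_distrib, Om, prod_eq_one (s := range N) (f := fun i => _ * _),
    mul_one]
  · refine prod_congr rfl fun i _ => ?_
    rw [tsum_eq_single 0 fun j hj => by
      have : ¬ j + 1 ≤ 1 := by omega
      simp [wt, this], mul_neg, (odd_two_mul_add_one i).neg_pow]
    simp only [wt, odd_two_mul_add_one, if_true, zero_add, le_refl, pow_one, mul_one,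
      smul_eq_C_mul, map_add, map_mul, map_pow, map_one]
    ring
  · intro i _
    have no : ¬ Odd (2 * i + 1 + 1) := by rw [Nat.not_odd_iff_even]; exact ⟨i + 1, by ring⟩
    have := congrArg π (geo_inv (v ^ (2 * i + 1 + 1)) (2 * i + 1))
    simp only [wt, no, if_false]
    rw [map_mul, map_one] at this
    refine Eq.trans ?_ this
    rw [mul_neg, neg_sq]
    simp only [map_sub, map_mul, map_pow, map_one]
    congr 1
    ring

end

theorem key (m : ℕ) (hm : m % 7 = 0 ∨ m % 7 = 5) : (7 : ℤ) ∣ S m := by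
  obtain ⟨R, _, ε, hε, R7, hR⟩ : ∃ (R : Type) (_ : CommRing R) (ε : R), ε ^ 2 = 0 ∧ (7 : R) = 0 ∧
      ∀ c : ℤ, ε * c = 0 → 7 ∣ c := by
    refine ⟨DualNumber (ZMod 7), inferInstance, DualNumber.eps,
      by rw [sq]; exact DualNumber.eps_mul_eps, ?_, fun c hc => ?_⟩
    · rw [← map_ofNat (algebraMap (ZMod 7) (DualNumber (ZMod 7))) 7,
        show (7 : ZMod 7) = 0 from rfl, map_zero]
    · have := congrArg TrivSqZeroExt.snd hc
      exact (ZMod.intCast_zmod_eq_zero_iff_dvd c 7).1 (by simpa using this)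
  obtain ⟨N, hN⟩ : ∃ N, N = m + 1 := ⟨_, rfl⟩
  obtain ⟨B, _, π, hπ⟩ := exists_tr R N
  have g1 := gen_rel (1 + ε) (1 - ε) hπ
  have g0 := gen_rel (1 + 0 : R) (1 - 0) hπ
  have B7 : (7 : B) = 0 := by rw [← map_ofNat (π.comp C) 7, R7, map_zero]
  have hx' : π (C (-1)) * π X = -π X := by simp
  set x := -π X with hx
  have nil : x ^ N = 0 := hx' ▸ hπ.nil _
  set e := π (C ε) with he
  have e2 : e ^ 2 = 0 := by rw [he, ← map_pow, ← map_pow, hε, map_zero, map_zero]
  set G1 := Nat.Partition.genFun (wt (1 + ε) (1 - ε)) with hG1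
  set G0 := Nat.Partition.genFun (wt (1 + 0 : R) (1 - 0)) with hG0
  simp only [map_add, map_sub, map_one, map_zero, add_zero, sub_zero, one_mul, ← he] at g1 g0
  have nu : ((1 + e) * x) ^ N = 0 := by rw [mul_pow, nil, mul_zero]
  have f2 : P (((1 - e) * x) ^ 2) N * P (((1 + e) * x) ^ 2) N = P (x ^ 2) N ^ 2 := by
    rw [P, P, P, ← prod_mul_distrib, ← prod_pow]
    refine prod_congr rfl fun i _ => ?_
    rw [← pow_mul, ← pow_mul, ← pow_mul, mul_pow, mul_pow, one_add_pow_sq e2, sub_eq_add_neg 1 e,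
      one_add_pow_sq (e := -e) (by rw [neg_sq, e2])]
    linear_combination -((2 * (i + 1) : ℕ) * x ^ (2 * (i + 1))) ^ 2 * e2
  obtain ⟨W, hW⟩ := dvd_prod_sub (e := e) (range N) (fun i => 1 - ((1 + e) * x) ^ (i + 1))
    (fun i => 1 - x ^ (i + 1)) fun i => ⟨-((i + 1 : ℕ) * x ^ (i + 1)), by
      rw [mul_pow, one_add_pow_sq e2]; ring⟩
  change P _ N - P x N = _ at hW
  have J : P ((1 + e) * x) N ^ 3
      = P x N ^ 3 + e * Th x (fun k => T k) fun k => sg k * k * T k := by
    rw [jacobi _ N nu, jacobi _ N nil, Th, Th, Th, mul_finsum' _ _ (good_T.fin nil _),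
      ← finsum_add_distrib (good_T.fin nil _) ?_]
    · refine finsum_congr fun k => ?_
      rw [mul_pow, one_add_pow_sq e2, Int.toNat_natCast]
      push_cast; ring
    · simpa only [← mul_assoc] using good_T.fin nil fun k => e * ((sg k * k * T k : ℤ) : B)
  have Z := Th_anti (Equiv.subLeft (-1 : ℤ)) (c := fun k => sg k * T k) good_T nil
    (fun s => by have := two_T s; have := two_T (-1 - s); simp; nlinarith) fun s => by
      have h1 := two_T s
      have h2 := two_T (-1 - s)
      have h3 : (T (-1 - s) : ℤ) = T s := by nlinarith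
      simp only [Equiv.subLeft_apply, h3, sg_succ (k := s) (l := -1 - s) ⟨s, by ring⟩]
      ring
  have J2 : ((2 : ℤ) : B) * Th x (fun k => T k) (fun k => sg k * k * T k)
      + Th x (fun k => T k) (fun k => sg k * T k)
      = Th x (fun k => T k) (fun k => sg k * (2 * k + 1) * T k) := by
    rw [Th_smul _ _ good_T nil, Th_add _ _ good_T nil]
    congr 1; funext k; ring
  have Q := quint nil (IsUnit.of_mul_eq_one 4 (by linear_combination B7))
  have F : P (x ^ 2) N ^ 7 = P (x ^ 14) N := by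
    rw [P, P, ← prod_pow]
    refine prod_congr rfl fun i _ => ?_
    rw [show x ^ 14 = (x ^ 2) ^ 7 by ring, ← pow_mul _ 7, mul_comm 7, pow_mul]
    generalize (x ^ 2) ^ (i + 1) = y
    linear_combination (-y + 3 * y ^ 2 - 5 * y ^ 3 + 5 * y ^ 4 - 3 * y ^ 5 + y ^ 6) * B7
  obtain ⟨w, hw, hw1⟩ := In.inv_P (π := π) (-1) 14 N N (nil_pow (hπ.nil _) 14 (by norm_num))
  have cast7 : ∀ c : ℤ, 7 ∣ c → (c : B) = 0 := by
    rintro _ ⟨c, rfl⟩; push_cast; rw [B7, zero_mul]
  have sq7 : ∀ a : ℤ, a * a % 7 = (a % 7) * (a % 7) % 7 := fun a => Int.mul_emod _ _ _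
  have i1 := In.th (π := π) (S := fun n => n % 7 = 1 ∨ n % 7 = 3) (-1) (fun k => T k)
    (fun k => sg k * (2 * k + 1) * T k) fun k => by
      have t := two_T k
      by_cases h1 : (7 : ℤ) ∣ T k
      · exact .inl (cast7 _ (h1.mul_left _))
      by_cases h2 : (7 : ℤ) ∣ 2 * k + 1
      · exact .inl (cast7 _ ((h2.mul_left _).mul_right _))
      right
      have := sq7 k
      rw [mul_add] at t
      have h7 : k % 7 = 0 ∨ k % 7 = 1 ∨ k % 7 = 2 ∨ k % 7 = 3 ∨ k % 7 = 4 ∨ k % 7 = 5 ∨ k % 7 = 6 := by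
        omega
      generalize k * k = s at *
      rcases h7 with h | h | h | h | h | h | h <;> rw [h] at this <;> omega
  have i2 := In.th (π := π) (S := fun n => n % 7 = 0 ∨ n % 7 = 1 ∨ n % 7 = 5) (-1)
    (fun n : ℤ => 3 * n ^ 2 + 2 * n) (fun n => sg n * (3 * n + 1)) fun k => by
      by_cases h2 : (7 : ℤ) ∣ 3 * k + 1
      · exact .inl (cast7 _ (h2.mul_left _))
      right
      have t := good_th.1 k
      have := sq7 k
      simp only [sq] at t ⊢
      have h7 : k % 7 = 0 ∨ k % 7 = 1 ∨ k % 7 = 2 ∨ k % 7 = 3 ∨ k % 7 = 4 ∨ k % 7 = 5 ∨ k % 7 = 6 := by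
        omega
      generalize k * k = s at *
      rcases h7 with h | h | h | h | h | h | h <;> rw [h] at this <;> omega
  have i3 := (((i1.mul i2 (S'' := fun n => n % 7 ≠ 0 ∧ n % 7 ≠ 5) (by omega)).mul hw
    (S'' := fun n => n % 7 ≠ 0 ∧ n % 7 ≠ 5) (by omega)).const (-ε))
  rw [hx'] at i3 hw1
  have fin : π (G1 - G0) = π (C (-ε)) * (Th x (fun k => T k) (fun k => sg k * (2 * k + 1) * T k) *
      Th x (fun n : ℤ => 3 * n ^ 2 + 2 * n) (fun n => sg n * (3 * n + 1)) * w) := by
    rw [map_sub, map_neg, map_neg, ← he, ← J2]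
    rw [mul_assoc, f2] at g1
    rw [mul_assoc, ← sq] at g0
    have k1 : (π G1 - π G0) * P (x ^ 2) N ^ 2 = e * W := by linear_combination g1 - g0 + hW
    have k2 : 3 * (e * W) * P x N ^ 2 = e * Th x (fun k => T k) fun k => sg k * k * T k := by
      rw [eq_add_of_sub_eq hW] at J
      linear_combination J - (3 * W ^ 2 * P x N + e * W ^ 3) * e2
    push_cast
    generalize Th x (fun n : ℤ => 3 * n ^ 2 + 2 * n) (fun n => sg n * (3 * n + 1)) = Θ at *
    generalize Th x (fun k => T k) (fun k => sg k * k * T k) = J' at *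
    generalize Th x (fun k => T k) (fun k => sg k * T k) = Z' at *
    have k3 : π G1 - π G0 = e * W * P x N ^ 2 * Θ * w := by
      linear_combination -(π G1 - π G0) * hw1 - (π G1 - π G0) * w * F
        + P (x ^ 2) N ^ 5 * w * k1 - e * W * w * Q
    rw [k3]
    linear_combination -2 * Θ * w * k2 - 3 * e * Θ * w * Z
      + (e * W * P x N ^ 2 * Θ * w + e * Θ * w * Z') * B7
  rw [← fin] at i3
  have c := In.coeff_eq hπ i3 (show m < N by omega) (by omega)
  rw [map_sub, hG1, hG0, coeff_gen ε hε, coeff_gen 0 (by simp), ← sum_sub_distrib] at c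
  refine hR _ ?_
  rw [← c, S]
  push_cast
  rw [mul_sum]
  exact sum_congr rfl fun p _ => by ring

theorem result (n : ℕ) : (7 : ℤ) ∣ S (7 * n) ∧ (7 : ℤ) ∣ S (7 * n + 5) :=
  ⟨key _ (by omega), key _ (by omega)⟩

end Pool.Agent.Results.MP_ec0d67_nt.Yes
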